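import Pool.Agent.Lib.MP_557161_ag.DL.Comp
import Pool.Agent.Lib.MP_557161_ag.D2.Link

/-!
The conjecture of Tate on the order of the poles of the zeta function, in every codimension, for
the smooth compactifications of all Deligne-Lusztig varieties of orthogonal and symplectic groups
in every characteristic.
-/

namespace Pool.Agent.Results.MP_557161_ag.ClassicalAllChar

open MvPolynomial Filter Matrix Pool.Agent.Lib.MP_557161_ag.DL Pool.Agent.Lib.MP_557161_ag.DL.D2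

theorem result (p e N l : ℕ) (hp : p.Prime) (he : 0 < e)
    (k : Type) [Field k] [Finite k] [CharP k p] (G B : Matrix (Fin N) (Fin N) k)
    (hG : G = B + Bᵀ ∨ (B = 0 ∧ Gᵀ = -G ∧ ∀ i, G i i = 0))
    (hnd : ∀ v, G *ᵥ v = 0 → v ⬝ᵥ B *ᵥ v = 0 → v = 0)
    (hq : ∀ i j, G i j ^ p ^ e = G i j) (hq' : ∀ i j, B i j ^ p ^ e = B i j)
    (w : Fin l → Fin (N / 2))
    (d : ℕ) (hd : d = Nat.card {j : Fin l // ¬ (G = B + Bᵀ ∧ 2 * ((w j : ℕ) + 1) = N)})
    (C : Set (Ideal (MvPolynomial (Idx (Fin N) (N / 2) l) k)))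
    (hC : C ⊆ (qideal k G B (p ^ e) w).minimalPrimes)
    (L : ℕ → Type) [∀ m, Field (L m)] [∀ m, Algebra k (L m)]
    (hL : ∀ m, Module.finrank k (L m) = m + 1) :
    SmProj (sInf C) d ∧ ∃ ζ : ℂ → ℂ, IsZeta (sInf C) d L ζ ∧ TateOrd (sInf C) d ζ := by
  have hn : N / 2 = Fintype.card (Fin N) / 2 := by rw [Fintype.card_fin]
  have g1 := modelQ_homog (G := G) (B := B) (q := p ^ e) w
  obtain ⟨g2, g4, g3⟩ := model_all hp he hG hnd hq hq' hn w
  rw [Fintype.card_fin, ← hd] at g4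
  have h1 := comp_homog g1 hC
  have h2 := fun s => comp_smooth g1 hC (g2 s)
  have h3 := fun P hP => g4 P (hC (comp_min hC hP))
  obtain ⟨ζ, z1, z2, z3⟩ := tate h1 h2 h3 (comp_ck g1 g2 hC g3).van L hL
  exact ⟨⟨h1, h2, h3, fun i P => nonempty_res h1 P.2.2.1 P.2.2.2.1,
    fun i n h P Q F => chi_eventually h1 h2 h3 h P Q F⟩, ζ, ⟨z1, z2⟩, z3⟩

end Pool.Agent.Results.MP_557161_ag.ClassicalAllChar
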