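import Pool.Agent.Lib.MP_557161_ag.MC.Eff

/-!
The conjecture of Tate on the poles of the zeta function for smooth projective models of
the double covers `z ^ 2 = lam + x 1 + ... + x (2 d) + 1 / (x 1 ... x (2 d))` of a torus, for all
but `C (d) p` values of the parameter.
-/

namespace Pool.Agent.Results.MP_557161_ag.MirrorUniform

open Pool.Agent.Lib.MP_557161_ag.DL
open Pool.Agent.Lib.MP_557161_ag.HG.MC (mcI)

theorem result (d : ℕ) (hd : 0 < d) : ∃ (σ : Type) (_ : Finite σ)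
    (m : σ → Option (Fin (2 * d)) → ℕ),
    AddSubgroup.closure (Set.range fun s : σ × σ => fun l => (m s.1 l : ℤ) - m s.2 l) = ⊤ ∧
    ∀ p : ℕ, p.Prime → ¬ p ∣ 2 * (2 * d + 1) → ∃ H : Polynomial (ZMod p),
      H ≠ 0 ∧ H.natDegree ≤ 2 * (2 * d + 2) ^ (2 * d + 5) * p ∧
      ∀ (k : Type) [Field k] [Finite k] [Algebra (ZMod p) k] (lam : k),
        Polynomial.aeval lam H ≠ 0 →
        ∀ (L : ℕ → Type) [∀ j, Field (L j)] [∀ j, Algebra k (L j)],
          (∀ j, Module.finrank k (L j) = j + 1) →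
          SmProj (mcI m lam) (2 * d) ∧
            ∃ ζ : ℂ → ℂ, IsZeta (mcI m lam) (2 * d) L ζ ∧ TateOrd (mcI m lam) (2 * d) ζ := by
  obtain ⟨σ, _, m, h1, h2⟩ := Pool.Agent.Lib.MP_557161_ag.HG.MC.Eff.final3 d hd
  refine ⟨σ, inferInstance, m, h1, fun p hp hn => (h2 p hp hn).imp fun H h =>
    ⟨h.1.1, h.1.2, ?_⟩⟩
  exact fun k _ _ _ lam e L _ _ hL => ⟨(h.2 k lam e).1, ((h.2 k lam e).2 L hL).1⟩

end Pool.Agent.Results.MP_557161_ag.MirrorUniform
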