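import Pool.Agent.Lib.MP_557161_ag.TU.Fin
import Pool.Agent.Lib.MP_557161_ag.TU.Pts
import Pool.Agent.Lib.MP_557161_ag.TU.Shift
import Pool.Agent.Lib.MP_557161_ag.DL.Defs2

/-!
The conjecture of Tate on the order of the poles of the zeta function, in every codimension, for
the smooth compactifications of all Deligne-Lusztig varieties of unitary groups.
-/

namespace Pool.Agent.Results.MP_557161_ag.UnitaryPole

open MvPolynomial Filter Pool.Agent.Lib.MP_557161_ag.DL

theorem result (p e n l : ℕ) (hp : p.Prime) (he : 0 < e)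
    (k : Type) [Field k] [Finite k] [CharP k p] (w : Fin l → Fin n)
    (L : ℕ → Type) [∀ m, Field (L m)] [∀ m, Algebra k (L m)]
    (hL : ∀ m, Module.finrank k (L m) = m + 1) :
    SmProj (idealU k (p ^ e) w) l ∧
      ∃ ζ : ℂ → ℂ, IsZeta (idealU k (p ^ e) w) l L ζ ∧ TateOrd (idealU k (p ^ e) w) l ζ := by
  have : Fact p.Prime := ⟨hp⟩
  have h1 := modelU_homog (k := k) w (p ^ e)
  have h2 := modelU_smooth (k := k) w he
  have h3 := modelU_dim (k := k) w he
  obtain ⟨ζ, z1, ⟨c, z2⟩, z3, z4⟩ := tateU he w L hL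
  obtain ⟨C, hC⟩ := points_le h1 h3
  obtain ⟨ζ', y1, y2, y3⟩ := zeta_shift (Nat.card k) Finite.one_lt_card l C
    (fun m => points (idealU k (p ^ e) w) (L m)) (fun m => by
      have : Module.Finite k (L m) := Module.finite_of_finrank_pos (by rw [hL]; omega)
      have : Finite (L m) := Module.finite_of_finite k
      have h := hC (L m)
      rwa [Module.natCard_eq_pow_finrank (K := k), hL] at h) z1 z2
  refine ⟨⟨h1, h2, h3, fun i P => nonempty_res h1 P.2.2.1 P.2.2.2.1,
    fun i n h P Q F => chi_eventually h1 h2 h3 h P Q F⟩, ζ', ⟨y1, y2⟩, fun i j h F => ?_,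
    fun j h => ?_⟩
  · rw [y3]
    exact z3 i j h F
  · rw [y3]
    exact z4 j h

end Pool.Agent.Results.MP_557161_ag.UnitaryPole
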